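import Pool.Agent.H39.HW.SBas

/-!
# Project HW, scheme side: part VH (the hub)
-/

set_option autoImplicit false
open Classical Finset

namespace Pool.Agent.H39.HW.Sc

open Pool.Agent.H39.HW

/-- at least half of an interval (up to `H0`) lies in the second half of the pattern -/
theorem VH_cnt (H0 b y z : ℕ) (h0 : 1 ≤ H0) (hb : b ≤ y) :
    z ≤ y + H0 + 2 * ((Finset.Ico y z).filter fun β => H0 ≤ (β - b) % (2 * H0)).card := by
  set U := (Finset.Ico y z).filter fun β => H0 ≤ (β - b) % (2 * H0) with hU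
  rcases Nat.lt_or_ge z (y + H0) with h | h
  · omega
  have h1 : ((Finset.Ico y (z - H0)).filter fun β => (β - b) % (2 * H0) < H0).card ≤ U.card := by
    apply Finset.card_le_card_of_injOn (fun β => β + H0)
    · intro β hβ
      have hβ' := Finset.mem_filter.mp (Finset.mem_coe.mp hβ)
      have h2 := Finset.mem_Ico.mp hβ'.1
      have h3 := hβ'.2
      rw [Finset.mem_coe, hU, Finset.mem_filter, Finset.mem_Ico]
      refine ⟨by show y ≤ β + H0 ∧ β + H0 < z; omega, ?_⟩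
      have h4 : β + H0 - b = (β - b) + H0 := by omega
      show H0 ≤ (β + H0 - b) % (2 * H0)
      rw [h4, Nat.add_mod, Nat.mod_eq_of_lt (by omega : H0 < 2 * H0),
        Nat.mod_eq_of_lt (by omega : (β - b) % (2 * H0) + H0 < 2 * H0)]
      omega
    · intro β _ γ _ h
      have h' : β + H0 = γ + H0 := h
      omega
  have h2 : ((Finset.Ico y (z - H0)).filter fun β => ¬ (β - b) % (2 * H0) < H0).card ≤ U.card := by
    apply Finset.card_le_card
    intro β hβ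
    rw [Finset.mem_filter, Finset.mem_Ico] at hβ
    rw [hU, Finset.mem_filter, Finset.mem_Ico]
    omega
  have h3 := Finset.card_filter_add_card_filter_not (s := Finset.Ico y (z - H0))
    (fun β => (β - b) % (2 * H0) < H0)
  rw [Nat.card_Ico] at h3
  omega

/-- the size of the hub -/
theorem VH_card (hM : S_MMD) (hC : S_CLD) {x : Prm} (hx : Par x) {a : ℕ} (ha : a ∈ x.R) :
    x.M ≤ 2 * x.K + 4 * (x.Hb a).card + x.L + 5 := by
  obtain ⟨-, hM2⟩ := hM x hx
  obtain ⟨hmm, -, -, -⟩ := hM2 a ha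
  have hsub := (hC x hx a ha).2.1
  have hL : x.L = 2 * (4 * x.h ^ 2 + 2 * x.h) := by rw [hx.L1]; ring
  have hh := hx.hge
  have hH0 : 1 ≤ 4 * x.h ^ 2 + 2 * x.h := by omega
  have hb1 : x.b1 = x.b0 + x.M := rfl
  have hbB := hx.b1_le_B
  -- members
  have key : ∀ y z : ℕ, x.b0 ≤ y → z ≤ x.b1 → (∀ β, y ≤ β → β < z → ¬ x.adj a β) →
      ((Finset.Ico y z).filter fun β =>
        (4 * x.h ^ 2 + 2 * x.h) ≤ (β - x.b0) % (2 * (4 * x.h ^ 2 + 2 * x.h))).card ≤
        (x.Hb a).card + 1 := by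
    intro y z hy hz hadj
    have : ((Finset.Ico y z).filter fun β =>
        (4 * x.h ^ 2 + 2 * x.h) ≤ (β - x.b0) % (2 * (4 * x.h ^ 2 + 2 * x.h))) ⊆
        insert (sm x.B a a) (x.Hb a) := by
      intro β hβ
      rw [Finset.mem_filter, Finset.mem_Ico] at hβ
      obtain ⟨⟨h1, h2⟩, h3⟩ := hβ
      rw [Finset.mem_insert]
      by_cases hs : β = sm x.B a a
      · exact Or.inl hs
      · right
        have hm : β ∈ x.mm a := (hmm β).mpr ⟨by omega, hadj β h1 h2, hs⟩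
        unfold Prm.Hb
        rw [Finset.mem_filter]
        refine ⟨hsub hm, ?_, hm, ?_⟩
        · unfold Prm.mid
          rw [Finset.mem_Ico]
          omega
        · rw [hL]; exact h3
    exact (Finset.card_le_card this).trans (Finset.card_insert_le _ _)
  have hK := (hx.mem_R).mp ha
  have k1 := key x.b0 (min (a - x.K) x.b1) le_rfl (min_le_right _ _) (by
    intro β h1 h2 h3
    unfold Prm.adj at h3
    have := lt_of_lt_of_le h2 (min_le_left _ _)
    omega)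
  have k2 := key (max (a + x.K + 1) x.b0) x.b1 (le_max_right _ _) le_rfl (by
    intro β h1 h2 h3
    unfold Prm.adj at h3
    have := (le_max_left _ _).trans h1
    omega)
  have c1 := VH_cnt (4 * x.h ^ 2 + 2 * x.h) x.b0 x.b0 (min (a - x.K) x.b1) hH0 le_rfl
  have c2 := VH_cnt (4 * x.h ^ 2 + 2 * x.h) x.b0 (max (a + x.K + 1) x.b0) x.b1 hH0
    (le_max_right _ _)
  generalize ((Finset.Ico x.b0 (min (a - x.K) x.b1)).filter fun β =>
        (4 * x.h ^ 2 + 2 * x.h) ≤ (β - x.b0) % (2 * (4 * x.h ^ 2 + 2 * x.h))).card = U1 at k1 c1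
  generalize ((Finset.Ico (max (a + x.K + 1) x.b0) x.b1).filter fun β =>
        (4 * x.h ^ 2 + 2 * x.h) ≤ (β - x.b0) % (2 * (4 * x.h ^ 2 + 2 * x.h))).card = U2 at k2 c2
  generalize 4 * x.h ^ 2 + 2 * x.h = H0 at *
  generalize (x.Hb a).card = N at *
  generalize x.b0 = b0 at *
  generalize x.b1 = b1 at *
  rw [hL]
  rcases le_total (a - x.K) b1 with h | h
  · rw [min_eq_left h] at c1
    rcases le_total (a + x.K + 1) b0 with h' | h'
    · rw [max_eq_right h'] at c2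
      omega
    · rw [max_eq_left h'] at c2
      omega
  · rw [min_eq_right h] at c1
    omega

/-- `h μ`, `L μ` are tiny -/
theorem VH_Lmu {x : Prm} (hx : Par x) : 10 ^ 9 * (x.L : ℝ) ^ 3 * (x.L * x.μ) ≤ x.ε * x.θ := by
  have h1 := hx.u1
  have : 10 ^ 9 * (x.L : ℝ) ^ 3 * (x.L * x.μ) = 10 ^ 9 * (x.L : ℝ) ^ 4 * x.μ := by ring
  rw [this]
  exact h1

theorem VH_hub (hM : S_MMD) (hC : S_CLD) {x : Prm} (hx : Par x) {a : ℕ} (ha : a ∈ x.R) :
    47 / 100 * x.ε ≤ (x.Hb a).card * x.μ := by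
  have h1 := VH_card hM hC hx ha
  have h2 : (x.M : ℝ) ≤ 2 * x.K + 4 * (x.Hb a).card + x.L + 5 := by exact_mod_cast h1
  have hm := hx.m0
  have h3 := mul_le_mul_of_nonneg_right h2 hm.le
  have h4 := hx.Mmu
  have h5 := hx.Kmu
  have h6 := hx.c2
  have h7 := VH_Lmu hx
  have hL : (8 * 10 ^ 8 : ℝ) ≤ x.L := by exact_mod_cast hx.Lge
  have h8 := hx.n1
  have h9 := hx.th_le
  have h10 := hx.e0
  have h11 := hx.t0
  have h12 := hx.n0
  have h13 : 10 ^ 9 * (x.L * x.μ) ≤ 10 ^ 9 * (x.L : ℝ) ^ 3 * (x.L * x.μ) := by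
    have b1 : (1 : ℝ) ≤ (x.L : ℝ) ^ 3 := one_le_pow₀ (by linarith)
    have b2 : 0 ≤ x.L * x.μ := by positivity
    nlinarith
  have h14 : x.ε * x.θ ≤ x.ε * 1 := mul_le_mul_of_nonneg_left (by linarith) h10.le
  have h15 : x.μ ≤ x.L * x.μ := by nlinarith
  have h16 : ((x.K : ℝ)) * x.μ ≤ x.c + x.η := h5.2
  nlinarith [h4.1]

/-- `t` times the normalised demand is large -/
theorem VH_big (hC : S_CLD) (hT : S_TOT) {x : Prm} (hx : Par x) {a : ℕ} (ha : a ∈ x.R) {β : ℕ}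
    (hβ : β ∈ x.cls a) : 1000 ≤ x.t * (x.dem a β / x.Dt a) := by
  have h1 := ((hC x hx a ha).2.2.2.2 β hβ).1
  have h2 := hx.Dt_bounds hT ha
  have h3 := hx.t0
  have h4 := hx.eta_le
  have h5 : 0 < x.Dt a := lt_of_lt_of_le (by nlinarith) h2.1
  have h6 : 3 / 10 * x.μ ≤ x.dem a β / x.Dt a := by
    rw [le_div_iff₀ h5]
    have := mul_le_mul_of_nonneg_left h2.2 (by have := hx.m0; positivity : 0 ≤ 3 / 10 * x.μ)
    linarith
  have h7 := hx.t2
  have hL : (8 * 10 ^ 8 : ℝ) ≤ x.L := by exact_mod_cast hx.Lge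
  have h8 : (x.M : ℝ) ≤ x.B := by
    have : x.M ≤ x.B := by
      show x.M ≤ 2 * x.K + 2 * x.J + x.M
      omega
    exact_mod_cast this
  have h9 := hx.Mmu.1
  have hm := hx.m0
  have h10 := mul_le_mul_of_nonneg_right h8 hm.le
  have h11 : (1 : ℝ) ≤ (x.L : ℝ) ^ 2 := one_le_pow₀ (by linarith)
  have h12 : 10 ^ 9 * (x.L : ℝ) ^ 2 * x.B * x.μ ≤ x.ε * x.t * x.μ :=
    mul_le_mul_of_nonneg_right h7 hm.le
  have h13 : 10 ^ 9 * (1 - x.η) ≤ 10 ^ 9 * (x.L : ℝ) ^ 2 * x.B * x.μ := by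
    have b1 : 0 ≤ 10 ^ 9 * ((x.B : ℝ) * x.μ) := by positivity
    have b2 : 10 ^ 9 * ((x.B : ℝ) * x.μ) * 1 ≤ 10 ^ 9 * ((x.B : ℝ) * x.μ) * (x.L : ℝ) ^ 2 :=
      mul_le_mul_of_nonneg_left h11 b1
    nlinarith
  have h14 := hx.e1
  have h15 := hx.e0
  have h16 : 0 ≤ x.t * x.μ := by positivity
  have h17 : x.ε * x.t * x.μ ≤ 1 / 10 * (x.t * x.μ) := by nlinarith
  have h18 : x.t * (3 / 10 * x.μ) ≤ x.t * (x.dem a β / x.Dt a) :=
    mul_le_mul_of_nonneg_left h6 (Nat.cast_nonneg _)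
  nlinarith

/-- VH: the hub -/
theorem t_VH (hK : S_KTB) (hKK : S_KKR) (hR : S_ROW) (hV : S_VF) (hC : S_CLD) (hM : S_MMD)
    (hP : S_PAT) (hS : S_SHR) (hT : S_TOT) : S_VH := by
  intro x hx φ hφ
  refine ⟨fun a _ => Finset.filter_subset _ _, ?_, ?_⟩
  · intro a ha β hβ P hPh
    have hPh' : P < 2 * x.h := hPh
    have ha' : a ∈ x.R := ha
    have hβ' : β ∈ x.Hb a := hβ
    have hβ2 := hβ'
    unfold Prm.Hb at hβ2
    rw [Finset.mem_filter] at hβ2
    obtain ⟨hcls, hmid, -, hpos⟩ := hβ2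
    obtain ⟨hk1, hk2⟩ := hK x hx φ hφ a ha'
    rw [hk1 P hPh' β]
    have e1 := (abs_le.mp (hk2 β hcls)).2
    have e2 := (abs_le.mp (((hKK x hx P hPh').1 a ha').2.1 β)).1
    have e3 := (hR x hx a ha' (x.tp P)).2.2.2.2.2 β hβ'
    have hbig := VH_big hC hT hx ha' hcls
    set d := x.dem a β / x.Dt a with hd
    have e4 : 2 * (x.h : ℝ) * x.t * x.dem a β / x.Dt a = 2 * x.h * (x.t * d) := by
      rw [hd]; ring
    rw [e4] at e1
    have e5 : 2 * x.dem a β / x.Dt a = 2 * d := by rw [hd]; ring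
    rw [e5] at e3
    -- the weight
    have hw : 1 ≤ x.wb P β := by
      unfold Prm.wb
      rw [if_pos hmid]
      apply ((hP x hx P hPh').2.1 _)
      unfold Prm.resv
      omega
    have hrs := abs_le.mp (hS x hx P hPh' a ha')
    have hsm : 200 * x.L * x.μ / x.θ ≤ 1 / 100 := by
      rw [div_le_iff₀ hx.t0]
      have h7 := VH_Lmu hx
      have hL : (8 * 10 ^ 8 : ℝ) ≤ x.L := by exact_mod_cast hx.Lge
      have h13 : 10 ^ 9 * (x.L * x.μ) ≤ 10 ^ 9 * (x.L : ℝ) ^ 3 * (x.L * x.μ) := by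
        have b1 : (1 : ℝ) ≤ (x.L : ℝ) ^ 3 := one_le_pow₀ (by linarith)
        have b2 : 0 ≤ x.L * x.μ := by have := hx.m0; positivity
        nlinarith
      have h10 := hx.e1
      have h11 := hx.t0
      nlinarith
    have hrs0 : 0 < x.rs P a := by linarith [hrs.1]
    have hrs1 : x.rs P a ≤ 101 / 100 := by linarith [hrs.2]
    have hd0 : 0 ≤ d := by
      by_contra hneg
      push Not at hneg
      have : x.t * d ≤ 0 := mul_nonpos_of_nonneg_of_nonpos (Nat.cast_nonneg _) hneg.le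
      linarith
    have e6 : 3 / 4 * d ≤ x.uP P a β := by
      unfold Prm.uP
      rw [le_div_iff₀ hrs0]
      have b1 : x.u (x.tp P) a β ≤ x.wb P β * x.u (x.tp P) a β := by
        have : 0 ≤ x.u (x.tp P) a β := (hR x hx a ha' (x.tp P)).1 β
        nlinarith
      have b2 : 3 / 4 * d * x.rs P a ≤ 3 / 4 * d * (101 / 100) :=
        mul_le_mul_of_nonneg_left hrs1 (by positivity)
      nlinarith
    have e7 : 3 / 4 * (x.t * d) ≤ x.t * x.uP P a β := by
      have := mul_le_mul_of_nonneg_left e6 (Nat.cast_nonneg x.t : (0 : ℝ) ≤ x.t)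
      nlinarith
    have hL : (8 * 10 ^ 8 : ℝ) ≤ x.L := by exact_mod_cast hx.Lge
    have e8 : 1 / (10 ^ 4 * (x.L : ℝ) ^ 2) ≤ 1 := by
      rw [div_le_one (by positivity)]
      have : (1 : ℝ) ≤ (x.L : ℝ) ^ 2 := one_le_pow₀ (by linarith)
      linarith
    have e9 : 0 ≤ 2 * x.h * (x.t * d) := by positivity
    have e10 : 1 / (10 ^ 4 * (x.L : ℝ) ^ 2) * (2 * x.h * (x.t * d)) ≤ 2 * x.h * (x.t * d) := by
      nlinarith
    have e11 : ((x.dat φ).kt a β : ℝ) ≤ 4 * x.h * (x.t * d) := by nlinarith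
    have e12 : 1 / 2 * (x.t * d) ≤ x.kk P a β := by linarith
    have e13 : ((x.dat φ).kt a β : ℝ) ≤ 8 * (2 * x.h) * x.kk P a β := by
      have : 4 * x.h * (x.t * d) ≤ 8 * (2 * x.h) * (x.kk P a β : ℝ) := by
        have := mul_le_mul_of_nonneg_left e12 (by positivity : (0 : ℝ) ≤ 8 * (2 * x.h))
        nlinarith
      exact e11.trans this
    exact_mod_cast e13
  · intro a ha
    have ha' : a ∈ x.R := ha
    have hhub := VH_hub hM hC hx ha'
    have h1 : ∀ β ∈ x.Hb a, 1 / (200 * x.L) * (3 / 10 * x.θ * x.μ) ≤ (x.dat φ).lo x.D a β := by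
      intro β hβ
      have hcls : β ∈ x.cls a := Finset.filter_subset _ _ hβ
      have b1 := (hV x hx φ hφ a ha' β hcls).2.2
      have b2 := ((hC x hx a ha').2.2.2.2 β hcls).1
      have b3 : (0 : ℝ) ≤ 1 / (200 * x.L) := by positivity
      exact (mul_le_mul_of_nonneg_left b2 b3).trans b1
    have h2 := Finset.sum_le_sum h1
    rw [Finset.sum_const, nsmul_eq_mul] at h2
    refine le_trans ?_ h2
    show 32 * ((2 * x.h : ℕ) : ℝ) * (x.θ / (10 ^ 3 * x.L ^ 2 * x.h) + 40 * x.μ) ≤ _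
    have hL : (8 * 10 ^ 8 : ℝ) ≤ x.L := by exact_mod_cast hx.Lge
    have hL0 : (0 : ℝ) < x.L := by linarith
    have hh : (10000 : ℝ) ≤ x.h := by exact_mod_cast hx.hge
    have hh0 : (0 : ℝ) < x.h := by linarith
    have ht := hx.t0
    have hm := hx.m0
    have he := hx.e0
    have h3 : ((x.Hb a).card : ℝ) * (1 / (200 * x.L) * (3 / 10 * x.θ * x.μ)) =
        ((x.Hb a).card * x.μ) * (3 / 2000 * x.θ) / x.L := by
      field_simp
      ring
    rw [h3]
    have h4 : 47 / 100 * x.ε * (3 / 2000 * x.θ) / x.L ≤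
        ((x.Hb a).card * x.μ) * (3 / 2000 * x.θ) / x.L := by
      gcongr
    refine le_trans ?_ h4
    have h5 : 32 * ((2 * x.h : ℕ) : ℝ) * (x.θ / (10 ^ 3 * x.L ^ 2 * x.h) + 40 * x.μ) =
        64 / 1000 * x.θ / (x.L ^ 2) + 2560 * (x.h * x.μ) := by
      push_cast
      field_simp
      ring
    rw [h5]
    -- epsilon * L is large
    have hLh : (x.L : ℝ) = 8 * x.h ^ 2 + 4 * x.h := by rw [hx.L1]; push_cast; ring
    have h6 : 8000 * (x.h : ℝ) ≤ x.ε * x.L := by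
      rw [hLh]
      have := hx.h1
      nlinarith
    have h7 : (8 : ℝ) * 10 ^ 7 ≤ x.ε * x.L := by linarith
    have h8 : 64 / 1000 * x.θ / ((x.L : ℝ) ^ 2) ≤ 1 / 10000 * x.ε * x.θ / x.L := by
      rw [div_le_div_iff₀ (by positivity) hL0]
      have : 64 / 1000 * x.θ * x.L ≤ 1 / 10000 * x.θ * x.L * (x.ε * x.L) := by
        have b1 : 0 ≤ x.θ * x.L := by positivity
        nlinarith
      nlinarith
    have h9 : 2560 * (x.h * x.μ) ≤ 1 / 10000 * x.ε * x.θ / x.L := by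
      rw [le_div_iff₀ hL0]
      have b1 := VH_Lmu hx
      have b2 : (x.h : ℝ) ≤ x.L := by rw [hLh]; nlinarith
      have b3 : 2560 * (x.h * x.μ) * x.L ≤ 2560 * (x.L * x.μ) * x.L := by
        gcongr
      have b4 : (x.L : ℝ) ≤ (x.L : ℝ) ^ 3 := by
        have : (1 : ℝ) ≤ (x.L : ℝ) ^ 2 := one_le_pow₀ (by linarith)
        nlinarith
      have b5 : 0 ≤ x.L * x.μ := by positivity
      nlinarith
    have h10 : 0 ≤ x.ε * x.θ / x.L := by positivity
    have h11 : 47 / 100 * x.ε * (3 / 2000 * x.θ) / x.L = 141 / 200000 * (x.ε * x.θ / x.L) := by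
      ring
    have h12 : 1 / 10000 * x.ε * x.θ / x.L = 1 / 10000 * (x.ε * x.θ / x.L) := by ring
    rw [h12] at h8 h9
    rw [h11]
    linarith

end Pool.Agent.H39.HW.Sc
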